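import Pool.Agent.Helper98.HQ.Spec

/-!
# HQ: coalescence (part COAL, MP_1ece5f_pr)
-/

set_option autoImplicit false

open MeasureTheory Filter Topology
open scoped ENNReal NNReal

namespace Pool.Agent.Helper84.HQ.COAL

open Pool.Agent.Helper98.HQ

variable {k : ℕ}

theorem neq_le_one (z : (Fin k → ℝ) × (Fin k → ℝ)) : neq z ≤ 1 := by
  unfold neq; split_ifs <;> simp

theorem opp_mono (ν : Measure (ℝ × ℝ)) {h h' : (Fin k → ℝ) × (Fin k → ℝ) → ℝ≥0∞}
    (hh : ∀ z, h z ≤ h' z) (z) : opp ν h z ≤ opp ν h' z :=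
  lintegral_mono fun _ => hh _

theorem neq_stp (z : (Fin k → ℝ) × (Fin k → ℝ)) (u : ℝ × ℝ) :
    neq (stp 1 z.1 u, stp 1 z.2 u) ≤ neq z := by
  by_cases h : z.1 = z.2
  · simp [neq, h]
  · have : neq z = 1 := by simp [neq, h]
    rw [this]; exact neq_le_one _

theorem anti (ν : Measure (ℝ × ℝ)) [IsProbabilityMeasure ν] (n : ℕ)
    (z : (Fin k → ℝ) × (Fin k → ℝ)) : (opp ν)^[n + 1] neq z ≤ (opp ν)^[n] neq z := by
  induction n generalizing z with
  | zero =>
    simp only [Function.iterate_succ_apply', Function.iterate_zero, id]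
    calc opp ν neq z ≤ ∫⁻ _u, neq z ∂ν := lintegral_mono fun u => neq_stp z u
      _ = neq z := by simp
  | succ n ih =>
    calc (opp ν)^[n + 1 + 1] neq z = opp ν ((opp ν)^[n + 1] neq) z := by
          rw [Function.iterate_succ_apply' (opp ν) (n + 1) neq]
      _ ≤ opp ν ((opp ν)^[n] neq) z := opp_mono ν ih z
      _ = (opp ν)^[n + 1] neq z := by rw [Function.iterate_succ_apply' (opp ν) n neq]

theorem anti' (ν : Measure (ℝ × ℝ)) [IsProbabilityMeasure ν]
    (z : (Fin k → ℝ) × (Fin k → ℝ)) : Antitone (fun n => (opp ν)^[n] neq z) :=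
  antitone_nat_of_succ_le fun n => anti ν n z

theorem le_one (ν : Measure (ℝ × ℝ)) [IsProbabilityMeasure ν] (n : ℕ)
    (z : (Fin k → ℝ) × (Fin k → ℝ)) : (opp ν)^[n] neq z ≤ 1 :=
  (anti' ν z (Nat.zero_le n)).trans (neq_le_one z)

theorem eq_zero (ν : Measure (ℝ × ℝ)) [IsProbabilityMeasure ν] (n : ℕ)
    (z : (Fin k → ℝ) × (Fin k → ℝ)) (hz : z.1 = z.2) : (opp ν)^[n] neq z = 0 := by
  have := anti' ν z (Nat.zero_le n)
  simp only [Function.iterate_zero, id] at this
  have h0 : neq z = 0 := by simp [neq, hz]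
  rw [h0] at this
  exact le_antisymm this zero_le

/-- one round -/
theorem base (ν : Measure (ℝ × ℝ)) [IsProbabilityMeasure ν] (n0 : ℕ) (θ R' : ℝ) (hθ : 0 < θ)
    (hθ1 : θ ≤ 1) (hR' : 0 < R')
    (hq : ∀ x y : Fin k → ℝ, Adm x → Adm y → (∀ i, x i ≤ R') →
    (∀ i, y i ≤ R') → (opp ν)^[n0] neq (x, y) ≤ ENNReal.ofReal (1 - θ))
    (x y : Fin k → ℝ) (hx : Adm x) (hy : Adm y) :
    (opp ν)^[n0] neq (x, y) ≤ ENNReal.ofReal (1 - θ) * neq (x, y) +
      ENNReal.ofReal (θ / R') * (ENNReal.ofReal (∑ i, x i) + ENNReal.ofReal (∑ i, y i)) := by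
  by_cases h : x = y
  · rw [eq_zero ν n0 (x, y) h]; exact zero_le
  have hn : (neq (x, y) : ℝ≥0∞) = 1 := by simp [neq, h]
  rw [hn, mul_one]
  by_cases hb : (∀ i, x i ≤ R') ∧ (∀ i, y i ≤ R')
  · exact (hq x y hx hy hb.1 hb.2).trans le_self_add
  · have key : ∀ v : Fin k → ℝ, Adm v → (¬ ∀ i, v i ≤ R') → R' ≤ ∑ i, v i := by
      intro v hv hnv
      push Not at hnv
      obtain ⟨i, hi⟩ := hnv
      exact hi.le.trans (Finset.single_le_sum (f := v) (fun j _ => hv.2 j) (Finset.mem_univ i))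
    have hge : R' ≤ (∑ i, x i) + ∑ i, y i := by
      have h1 : 0 ≤ ∑ i, x i := Finset.sum_nonneg fun i _ => hx.2 i
      have h2 : 0 ≤ ∑ i, y i := Finset.sum_nonneg fun i _ => hy.2 i
      rw [not_and_or] at hb
      rcases hb with hb | hb
      · linarith [key x hx hb]
      · linarith [key y hy hb]
    have h1 : 0 ≤ ∑ i, x i := Finset.sum_nonneg fun i _ => hx.2 i
    have h2 : 0 ≤ ∑ i, y i := Finset.sum_nonneg fun i _ => hy.2 i
    rw [← ENNReal.ofReal_add h1 h2, ← ENNReal.ofReal_mul (by positivity),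
      ← ENNReal.ofReal_add (by linarith) (by positivity)]
    refine (le_one ν n0 (x, y)).trans ?_
    rw [← ENNReal.ofReal_one]
    apply ENNReal.ofReal_le_ofReal
    have : θ ≤ θ / R' * ((∑ i, x i) + ∑ i, y i) := by
      rw [div_mul_eq_mul_div, le_div_iff₀ hR']
      exact mul_le_mul_of_nonneg_left hge hθ.le
    linarith

theorem round (hKWB : S_KWB) (hKWM : S_KWM) (ν : Measure (ℝ × ℝ)) [IsProbabilityMeasure ν]
    (n0 : ℕ) (θ R' : ℝ) (hθ : 0 < θ)
    (hθ1 : θ ≤ 1) (hR' : 0 < R')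
    (hq : ∀ x y : Fin k → ℝ, Adm x → Adm y → (∀ i, x i ≤ R') →
    (∀ i, y i ≤ R') → (opp ν)^[n0] neq (x, y) ≤ ENNReal.ofReal (1 - θ)) (j : ℕ) :
    ∀ (x y : Fin k → ℝ), Adm x → Adm y →
    (opp ν)^[j + n0] neq (x, y) ≤ ENNReal.ofReal (1 - θ) * (opp ν)^[j] neq (x, y) +
      ENNReal.ofReal (θ / R') * ((op ν 1)^[j] (fun w => ENNReal.ofReal (∑ i, w i)) x +
        (op ν 1)^[j] (fun w => ENNReal.ofReal (∑ i, w i)) y) := by
  obtain ⟨-, hst, hop, hopp, -⟩ := hKWM
  have hst' : ∀ z : Fin k → ℝ, Measurable (fun u : ℝ × ℝ => stp 1 z u) := fun z =>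
    (hst k 1).comp (measurable_const.prodMk measurable_id)
  have hSm : Measurable (fun w : Fin k → ℝ => ENNReal.ofReal (∑ i, w i)) := by fun_prop
  induction j with
  | zero =>
    intro x y hx hy
    simpa using base ν n0 θ R' hθ hθ1 hR' hq x y hx hy
  | succ j ih =>
    intro x y hx hy
    have e1 : j + 1 + n0 = (j + n0) + 1 := by ring
    rw [e1]
    simp only [Function.iterate_succ_apply']
    have m1 : Measurable (fun u : ℝ × ℝ => (opp ν)^[j] neq (stp 1 x u, stp 1 y u)) :=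
      (hopp k ν inferInstance j).comp ((hst' x).prodMk (hst' y))
    have m2 : ∀ z : Fin k → ℝ, Measurable (fun u : ℝ × ℝ =>
        (op ν 1)^[j] (fun w => ENNReal.ofReal (∑ i, w i)) (stp 1 z u)) := fun z =>
      (hop k ν 1 _ inferInstance hSm j).comp (hst' z)
    calc opp ν ((opp ν)^[j + n0] neq) (x, y)
        = ∫⁻ u, (opp ν)^[j + n0] neq (stp 1 x u, stp 1 y u) ∂ν := rfl
      _ ≤ ∫⁻ u, (ENNReal.ofReal (1 - θ) * (opp ν)^[j] neq (stp 1 x u, stp 1 y u) +
          ENNReal.ofReal (θ / R') *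
            ((op ν 1)^[j] (fun w => ENNReal.ofReal (∑ i, w i)) (stp 1 x u) +
        (op ν 1)^[j] (fun w => ENNReal.ofReal (∑ i, w i)) (stp 1 y u))) ∂ν := by
          refine lintegral_mono fun u => ?_
          refine ih (stp 1 x u) (stp 1 y u) ?_ ?_
          · exact (hKWB k x x _ 0 _).1
          · exact (hKWB k y y _ 0 _).1
      _ = _ := by
          have m3 : Measurable (fun u : ℝ × ℝ =>
              ((op ν 1)^[j] (fun w => ENNReal.ofReal (∑ i, w i)) (stp 1 x u) +
                (op ν 1)^[j] (fun w => ENNReal.ofReal (∑ i, w i)) (stp 1 y u))) :=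
            (m2 x).add (m2 y)
          rw [lintegral_add_left (m1.const_mul _), lintegral_const_mul _ m1,
            lintegral_const_mul _ m3, lintegral_add_left (m2 x)]
          rfl

/-- The arithmetic of the last step. -/
theorem arith (α β : ℕ → ℝ) (n0 : ℕ) (θ R' D : ℝ) (n : ℕ) (hθ : 0 < θ) (hR' : 0 < R')
    (hα : Antitone α) (hα0 : ∀ j, 0 ≤ α j) (hα1 : ∀ j, α j ≤ 1)
    (h : ∀ j, j < n → α (j + n0) ≤ (1 - θ) * α j + θ / R' * β j)
    (hD : ∑ j ∈ Finset.range n, β j ≤ D) : n * α n ≤ n0 / θ + D / R' := by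
  have h1 : ∑ j ∈ Finset.range n, α (j + n0) ≤
      (1 - θ) * ∑ j ∈ Finset.range n, α j + θ / R' * ∑ j ∈ Finset.range n, β j := by
    rw [Finset.mul_sum, Finset.mul_sum, ← Finset.sum_add_distrib]
    exact Finset.sum_le_sum fun j hj => h j (Finset.mem_range.mp hj)
  have h2 : ∑ j ∈ Finset.range n, α j ≤ n0 + ∑ j ∈ Finset.range n, α (j + n0) := by
    have e : ∑ j ∈ Finset.range (n0 + n), α j = ∑ j ∈ Finset.range n0, α j +
        ∑ j ∈ Finset.range n, α (n0 + j) := Finset.sum_range_add α n0 n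
    have l1 : ∑ j ∈ Finset.range n, α j ≤ ∑ j ∈ Finset.range (n0 + n), α j :=
      Finset.sum_le_sum_of_subset_of_nonneg (Finset.range_mono (by omega)) fun j _ _ => hα0 j
    have l2 : ∑ j ∈ Finset.range n0, α j ≤ n0 := by
      calc ∑ j ∈ Finset.range n0, α j ≤ ∑ _j ∈ Finset.range n0, (1 : ℝ) :=
            Finset.sum_le_sum fun j _ => hα1 j
        _ = n0 := by simp
    have l3 : ∑ j ∈ Finset.range n, α (n0 + j) = ∑ j ∈ Finset.range n, α (j + n0) :=
      Finset.sum_congr rfl fun j _ => by rw [add_comm]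
    linarith
  have h3 : n * α n ≤ ∑ j ∈ Finset.range n, α j := by
    calc n * α n = ∑ _j ∈ Finset.range n, α n := by simp
      _ ≤ _ := Finset.sum_le_sum fun j hj => hα (Finset.mem_range.mp hj).le
  have h4 : θ / R' * ∑ j ∈ Finset.range n, β j ≤ θ / R' * D :=
    mul_le_mul_of_nonneg_left hD (by positivity)
  have h5 : θ * ∑ j ∈ Finset.range n, α j ≤ n0 + θ / R' * D := by linarith
  have h6 : ∑ j ∈ Finset.range n, α j ≤ (n0 + θ / R' * D) / θ := by
    rw [le_div_iff₀ hθ]; linarith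
  have h7 : (n0 + θ / R' * D) / θ = n0 / θ + D / R' := by
    field_simp
  linarith

theorem main (hQF : S_QF) (hDRIFT : S_DRIFT) (hKWB : S_KWB) (hKWM : S_KWM) : S_COAL := by
  intro m ν R δ hI hR hδ
  have := hI.prob
  obtain ⟨c, C, hc, hC, hdr⟩ := hDRIFT m ν hI
  set R' : ℝ := 4 * C / (c * δ) + 1 with hR'
  have hR'0 : 0 < R' := by positivity
  obtain ⟨n0, θ, hθ, hθ1, hq⟩ := hQF (m + 1) ν R' (by omega) hI hR'0.le
  set K : ℝ := n0 / θ + 2 * ((m + 1) * R ^ 2) / (c * R') with hK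
  have hK0 : 0 ≤ K := by positivity
  obtain ⟨n, hn⟩ := exists_nat_ge (2 * K / δ + 1)
  have hn0 : (0 : ℝ) < n := by
    have : 0 ≤ 2 * K / δ := by positivity
    linarith
  refine ⟨n, ?_⟩
  have main : ∀ x y : Fin (m + 1) → ℝ, Adm x → Adm y → (∀ i, x i ≤ R) → (∀ i, y i ≤ R) →
      (opp ν)^[n] neq (x, y) ≤ ENNReal.ofReal δ := by
    intro x y hx hy hxR hyR
    set S : (Fin (m + 1) → ℝ) → ℝ≥0∞ := fun w => ENNReal.ofReal (∑ i, w i) with hS
    set a : ℕ → ℝ≥0∞ := fun j => (opp ν)^[j] neq (x, y) with ha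
    set b : ℕ → ℝ≥0∞ := fun j => (op ν 1)^[j] S x + (op ν 1)^[j] S y with hb
    have ha1 : ∀ j, a j ≤ 1 := fun j => le_one ν j _
    have hat : ∀ j, a j ≠ ∞ := fun j => ne_top_of_le_ne_top ENNReal.one_ne_top (ha1 j)
    have hsq : ∀ v : Fin (m + 1) → ℝ, Adm v → (∀ i, v i ≤ R) →
        ∑ i, v i ^ 2 ≤ (m + 1) * R ^ 2 := by
      intro v hv hvR
      calc ∑ i, v i ^ 2 ≤ ∑ _i : Fin (m + 1), R ^ 2 :=
            Finset.sum_le_sum fun i _ => pow_le_pow_left₀ (hv.2 i) (hvR i) 2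
        _ = (m + 1) * R ^ 2 := by simp
    have hsum : ∑ j ∈ Finset.range n, b j ≤
        ENNReal.ofReal (2 * ((m + 1) * R ^ 2 + C * n) / c) := by
      have e2 : (2 * ((m + 1) * R ^ 2 + C * n) / c) =
          ((m + 1) * R ^ 2 + C * n) / c + ((m + 1) * R ^ 2 + C * n) / c := by ring
      rw [hb, Finset.sum_add_distrib, e2, ENNReal.ofReal_add (by positivity) (by positivity)]
      refine add_le_add ((hdr x n hx).trans ?_) ((hdr y n hy).trans ?_)
      · apply ENNReal.ofReal_le_ofReal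
        have := hsq x hx hxR
        gcongr
      · apply ENNReal.ofReal_le_ofReal
        have := hsq y hy hyR
        gcongr
    have hbt : ∀ j, j < n → b j ≠ ∞ := by
      intro j hj
      refine ne_top_of_le_ne_top ENNReal.ofReal_ne_top ((Finset.single_le_sum (f := b)
        (fun _ _ => zero_le) (Finset.mem_range.mpr hj)).trans hsum)
    have hreal : n * (a n).toReal ≤ n0 / θ + (2 * ((m + 1) * R ^ 2 + C * n) / c) / R' := by
      refine arith (fun j => (a j).toReal) (fun j => (b j).toReal) n0 θ R' _ n hθ hR'0 ?_ ?_ ?_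
        ?_ ?_
      · intro i j hij
        exact ENNReal.toReal_mono (hat i) (anti' ν (x, y) hij)
      · intro j; exact ENNReal.toReal_nonneg
      · intro j
        have := ENNReal.toReal_mono ENNReal.one_ne_top (ha1 j)
        simpa using this
      · intro j hj
        have h1 := round hKWB hKWM ν n0 θ R' hθ hθ1 hR'0 hq j x y hx hy
        change a (j + n0) ≤ ENNReal.ofReal (1 - θ) * a j + ENNReal.ofReal (θ / R') * b j at h1
        have hf : ENNReal.ofReal (1 - θ) * a j + ENNReal.ofReal (θ / R') * b j ≠ ∞ :=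
          ENNReal.add_ne_top.mpr ⟨ENNReal.mul_ne_top ENNReal.ofReal_ne_top (hat j),
            ENNReal.mul_ne_top ENNReal.ofReal_ne_top (hbt j hj)⟩
        have h2 := ENNReal.toReal_mono hf h1
        rw [ENNReal.toReal_add (ENNReal.mul_ne_top ENNReal.ofReal_ne_top (hat j))
          (ENNReal.mul_ne_top ENNReal.ofReal_ne_top (hbt j hj)), ENNReal.toReal_mul,
          ENNReal.toReal_mul, ENNReal.toReal_ofReal (by linarith),
          ENNReal.toReal_ofReal (by positivity)] at h2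
        exact h2
      · have h3 := ENNReal.toReal_mono ENNReal.ofReal_ne_top hsum
        rw [ENNReal.toReal_sum (fun j hj => hbt j (Finset.mem_range.mp hj)),
          ENNReal.toReal_ofReal (by positivity)] at h3
        exact h3
    have hfin : (a n).toReal ≤ δ := by
      have e3 : n0 / θ + (2 * ((m + 1) * R ^ 2 + C * n) / c) / R' =
          K + n * (2 * C / (c * R')) := by
        rw [hK]; field_simp; ring
      have e4 : 2 * C / (c * R') ≤ δ / 2 := by
        rw [div_le_iff₀ (by positivity)]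
        have : δ / 2 * (c * R') = 2 * C + c * δ / 2 := by
          rw [hR']; field_simp; ring
        rw [this]
        have : 0 < c * δ / 2 := by positivity
        linarith
      have e5 : K ≤ n * (δ / 2) := by
        have : 2 * K / δ ≤ n := by linarith
        rw [div_le_iff₀ hδ] at this
        linarith
      have e6 : n * (a n).toReal ≤ n * δ := by
        rw [e3] at hreal
        have := mul_le_mul_of_nonneg_left e4 hn0.le
        linarith
      exact le_of_mul_le_mul_left e6 hn0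
    change a n ≤ _
    rw [← ENNReal.ofReal_toReal (hat n)]
    exact ENNReal.ofReal_le_ofReal hfin
  intro x hx hxR
  have h0 : Adm (0 : Fin (m + 1) → ℝ) := ⟨fun _ _ _ => le_rfl, fun _ => le_rfl⟩
  exact ⟨main 0 x h0 hx (fun _ => hR) hxR, main x 0 hx h0 hxR (fun _ => hR)⟩

end Pool.Agent.Helper84.HQ.COAL
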