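import Pool.Agent.Helper98.HQ.Spec

/-!
# HQ: coupling (part CPL, MP_1ece5f_pr)
-/

set_option autoImplicit false

open MeasureTheory Filter Topology
open scoped ENNReal NNReal

namespace Pool.Agent.Helper84.HQ.CPL

open Pool.Agent.Helper98.HQ

theorem main (hKWM : S_KWM) : S_CPL := by
  intro k ν φ n x y hν hφ hφ1
  obtain ⟨-, hst, hop, hopp, -⟩ := hKWM
  have hst' : ∀ z : Fin k → ℝ, Measurable (fun u : ℝ × ℝ => stp 1 z u) := fun z =>
    (hst k 1).comp (measurable_const.prodMk measurable_id)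
  induction n generalizing x y with
  | zero =>
    simp only [Function.iterate_zero, id]
    by_cases h : x = y
    · subst h; exact le_self_add
    · have : (neq (x, y) : ℝ≥0∞) = 1 := by simp [neq, h]
      rw [this]
      exact (hφ1 x).trans le_add_self
  | succ n ih =>
    simp only [Function.iterate_succ_apply']
    change ∫⁻ u, ((op ν 1)^[n] φ) (stp 1 x u) ∂ν ≤ ∫⁻ u, ((op ν 1)^[n] φ) (stp 1 y u) ∂ν +
      ∫⁻ u, ((opp ν)^[n] neq) (stp 1 x u, stp 1 y u) ∂ν
    have hm : Measurable (fun u : ℝ × ℝ => ((op ν 1)^[n] φ) (stp 1 y u)) :=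
      (hop k ν 1 φ hν hφ n).comp (hst' y)
    rw [← lintegral_add_left hm]
    exact lintegral_mono fun u => ih _ _

end Pool.Agent.Helper84.HQ.CPL
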