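import Pool.Agent.Helper98.HQ.Spec

/-!
# HQ: the operator preserves bounded Lipschitz functions (part LIPP, MP_1ece5f_pr)
-/

set_option autoImplicit false

open MeasureTheory Filter Topology
open scoped ENNReal NNReal

namespace Pool.Agent.Helper84.HQ.LIPP

open Pool.Agent.Helper98.HQ

theorem main (hKWB : S_KWB) (hKWM : S_KWM) : S_LIPP := by
  intro k ν L φ hν hL hφ hφ1 hLip n
  obtain ⟨-, -, hop, -, -⟩ := hKWM
  refine ⟨hop k ν 1 φ hν hφ n, ?_, ?_⟩
  · induction n with
    | zero => simpa using hφ1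
    | succ n ih =>
      intro x
      simp only [Function.iterate_succ_apply']
      change ∫⁻ u, ((op ν 1)^[n] φ) (stp 1 x u) ∂ν ≤ 1
      calc ∫⁻ u, ((op ν 1)^[n] φ) (stp 1 x u) ∂ν ≤ ∫⁻ _u, 1 ∂ν := lintegral_mono fun u => ih _
        _ = 1 := by simp
  · induction n with
    | zero => simpa using hLip
    | succ n ih =>
      intro x y
      simp only [Function.iterate_succ_apply']
      change ∫⁻ u, ((op ν 1)^[n] φ) (stp 1 x u) ∂ν ≤ ∫⁻ u, ((op ν 1)^[n] φ) (stp 1 y u) ∂ν + _
      calc ∫⁻ u, ((op ν 1)^[n] φ) (stp 1 x u) ∂ν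
          ≤ ∫⁻ u, (((op ν 1)^[n] φ) (stp 1 y u) +
              ENNReal.ofReal (L * ∑ i, |x i - y i|)) ∂ν := by
            refine lintegral_mono fun u => (ih (stp 1 x u) (stp 1 y u)).trans ?_
            have := (hKWB k x y (1 * max u.2 0) (1 * max u.2 0) (max u.1 0)).2.2
            simp only [sub_self, abs_zero, add_zero] at this
            have h2 : ∑ i, |stp 1 x u i - stp 1 y u i| ≤ ∑ i, |x i - y i| := this
            gcongr
        _ = _ := by
            rw [lintegral_add_right _ measurable_const]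
            simp

end Pool.Agent.Helper84.HQ.LIPP
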